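import Pool.Agent.MWH.StmtsB

/-!
# Row BJ5 of squad MWH
-/

namespace Pool.Agent.MWH.H8

open Pool.Agent.Helper14_MV Pool.Agent.Helper2_MV Pool.Agent.MVO Pool.Agent.MWL Pool.Agent.MWS

variable {β : FIC}

theorem RR.tr {l m r : List ℕ} (h : RR β l m) (h' : RR β m r) : RR β l r := β.trans h h'

/-- replacement inside a word -/
theorem RR.mid (p q : List ℕ) {l m : List ℕ} (h : RR β l m) :
    RR β (p ++ (l ++ q)) (p ++ (m ++ q)) :=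
  (RR.refl p).append (h.append (RR.refl q))

/-- row BJ5 -/
theorem bj5 : Bj5Stmt := by
  intro β hβ
  have ap : RR β [0, 0] [0, 0, 0] := hβ.ap
  have j3 : RR β [0, 2, 0, 3, 0] [0, 2, 0, 0, 3, 0, 0] := hβ.j3
  have ap2 : RR β [0, 0, 0] [0, 0, 0, 0] := RR.mid [] [0] ap
  have ap3 : RR β [0, 0, 0, 0] [0, 0] := RR.symm (RR.tr ap ap2)
  refine ⟨⟨hβ.toS8, ?_⟩, ?_⟩
  · have e1 : mw 2 (Bit.J 3).a = [0, 2, 0, 3, 0] := by decide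
    have e2 : mw 2 (ad 1 (Bit.J 3).a 2) = [0, 2, 0, 3, 0, 0, 0] := by decide
    show RR β (mw 2 (Bit.J 3).a) (mw 2 (ad 1 (Bit.J 3).a 2))
    rw [e1, e2]
    have h1 : RR β [0, 2, 0, 3, 0, 0, 0] [0, 2, 0, 0, 3, 0, 0, 0, 0] := RR.mid [] [0, 0] j3
    have h2 : RR β [0, 2, 0, 0, 3, 0, 0, 0, 0] [0, 2, 0, 0, 3, 0, 0] :=
      RR.mid [0, 2, 0, 0, 3] [] ap3
    exact RR.tr j3 (RR.symm (RR.tr h1 h2))
  · have e1 : mw 2 (Bit.D 1).a = [0, 2, 0, 3, 0, 0] := by decide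
    have e2 : mw 2 (ad 1 (Bit.D 1).a 1) = [0, 2, 0, 0, 0, 3, 0, 0] := by decide
    show RR β (mw 2 (Bit.D 1).a) (mw 2 (ad 1 (Bit.D 1).a 1))
    rw [e1, e2]
    have h1 : RR β [0, 2, 0, 3, 0, 0] [0, 2, 0, 0, 3, 0, 0, 0] := RR.mid [] [0] j3
    have h2 : RR β [0, 2, 0, 0, 3, 0, 0] [0, 2, 0, 0, 3, 0, 0, 0] :=
      RR.mid [0, 2, 0, 0, 3] [] ap
    have h3 : RR β [0, 2, 0, 0, 3, 0, 0] [0, 2, 0, 0, 0, 3, 0, 0] :=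
      RR.mid [0, 2] [3, 0, 0] ap
    exact RR.tr h1 (RR.tr (RR.symm h2) h3)

end Pool.Agent.MWH.H8
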